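import Mathlib
import Pool.Agent.Helper17.Cherednik.Base
import Pool.Agent.Helper17.Cherednik.B2

set_option autoImplicit false

/-!
# Restricted rational Cherednik algebras are not always cellular

`V` is the reflection representation `𝔥`, `W` a finite subgroup of `GL(V)`.  The definitions of
reflections, parameters, the generators and relations of `H_c` and of cellular algebras are in
`Pool.Agent.Helper17.Cherednik.Base`.
-/

namespace Pool.Agent.Results.MP_385815_al.NotCellular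

open Module Pool.Agent.Helper17.Cherednik

section

variable {V : Type} [AddCommGroup V] [Module ℂ V]

/-- The rational Cherednik algebra `H_c` at `t = 0`. -/
abbrev Hc (W : Subgroup (V ≃ₗ[ℂ] V)) (c : Refl W → ℂ) : Type := RingQuot (Rel W c)

variable (W : Subgroup (V ≃ₗ[ℂ] V)) (c : Refl W → ℂ)

/-- The canonical projection of the free algebra onto `H_c`. -/
noncomputable def proj : FreeAlgebra ℂ (Gen W) →ₐ[ℂ] Hc W c := RingQuot.mkAlgHom ℂ (Rel W c)

variable {W c} in
lemma proj_rel {a b : FreeAlgebra ℂ (Gen W)} (h : Rel W c a b) : proj W c a = proj W c b :=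
  RingQuot.mkAlgHom_rel ℂ h

lemma gx_add (x x' : Dual ℂ V) : proj W c (FreeAlgebra.ι ℂ (Gen.x (x + x'))) =
    proj W c (FreeAlgebra.ι ℂ (Gen.x x)) + proj W c (FreeAlgebra.ι ℂ (Gen.x x')) := by
  rw [proj_rel (Rel.x_add x x'), map_add]

lemma gx_smul (a : ℂ) (x : Dual ℂ V) : proj W c (FreeAlgebra.ι ℂ (Gen.x (a • x))) =
    a • proj W c (FreeAlgebra.ι ℂ (Gen.x x)) := by
  rw [proj_rel (Rel.x_smul a x)]
  exact (proj W c).toLinearMap.map_smul a _

lemma gy_add (y y' : V) : proj W c (FreeAlgebra.ι ℂ (Gen.y (y + y'))) =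
    proj W c (FreeAlgebra.ι ℂ (Gen.y y)) + proj W c (FreeAlgebra.ι ℂ (Gen.y y')) := by
  rw [proj_rel (Rel.y_add y y'), map_add]

lemma gy_smul (a : ℂ) (y : V) : proj W c (FreeAlgebra.ι ℂ (Gen.y (a • y))) =
    a • proj W c (FreeAlgebra.ι ℂ (Gen.y y)) := by
  rw [proj_rel (Rel.y_smul a y)]
  exact (proj W c).toLinearMap.map_smul a _

/-- The canonical map `𝔥* → H_c`. -/
noncomputable def mapX : Dual ℂ V →ₗ[ℂ] Hc W c where
  toFun x := proj W c (FreeAlgebra.ι ℂ (Gen.x x))
  map_add' := gx_add W c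
  map_smul' := gx_smul W c

/-- The canonical map `𝔥 → H_c`. -/
noncomputable def mapY : V →ₗ[ℂ] Hc W c where
  toFun y := proj W c (FreeAlgebra.ι ℂ (Gen.y y))
  map_add' := gy_add W c
  map_smul' := gy_smul W c

lemma mapX_comm (x x' : Dual ℂ V) : mapX W c x * mapX W c x' = mapX W c x' * mapX W c x := by
  change proj W c _ * proj W c _ = proj W c _ * proj W c _
  rw [← map_mul, proj_rel (Rel.xx x x'), map_mul]

lemma mapY_comm (y y' : V) : mapY W c y * mapY W c y' = mapY W c y' * mapY W c y := by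
  change proj W c _ * proj W c _ = proj W c _ * proj W c _
  rw [← map_mul, proj_rel (Rel.yy y y'), map_mul]

/-- The canonical algebra homomorphism `ℂ[𝔥] = S(𝔥*) → H_c`. -/
noncomputable def symX : SymmetricAlgebra ℂ (Dual ℂ V) →ₐ[ℂ] Hc W c :=
  symLift (mapX W c) (mapX_comm W c)

/-- The canonical algebra homomorphism `ℂ[𝔥*] = S(𝔥) → H_c`. -/
noncomputable def symY : SymmetricAlgebra ℂ V →ₐ[ℂ] Hc W c :=
  symLift (mapY W c) (mapY_comm W c)

/-- The relations `p q = 0` for `p ∈ ℂ[𝔥]^W`, `q ∈ ℂ[𝔥*]^W` one of which has zero constant term.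
These products span the ideal of `ℂ[𝔥]^W ⊗ ℂ[𝔥*]^W` of elements all of whose homogeneous
components have positive degree. -/
def ResRel (a b : Hc W c) : Prop :=
  ∃ (p : SymmetricAlgebra ℂ (Dual ℂ V)) (q : SymmetricAlgebra ℂ V),
    IsInvX W p ∧ IsInvY W q ∧
    (SymmetricAlgebra.algebraMapInv p = (0 : ℂ) ∨ SymmetricAlgebra.algebraMapInv q = (0 : ℂ)) ∧
    a = symX W c p * symY W c q ∧ b = 0

/-- The restricted rational Cherednik algebra: the quotient of `H_c` by the two-sided ideal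
generated by the elements of positive degree of `ℂ[𝔥]^W ⊗ ℂ[𝔥*]^W`. -/
abbrev RestrictedHc : Type := RingQuot (ResRel W c)

lemma cellular_iff : IsCellular (RestrictedHc W c) ↔ IsCellular (RRCA W c) := Iff.rfl

end

/-- The Weyl group of type `B₂`, of order `8`: the subgroup of `GL(ℂ²)` generated by
`(v₀, v₁) ↦ (-v₀, v₁)` and `(v₀, v₁) ↦ (v₁, v₀)`. -/
def WB2 : Subgroup ((Fin 2 → ℂ) ≃ₗ[ℂ] (Fin 2 → ℂ)) :=
  Subgroup.closure {w | (∀ v, w v = ![-v 0, v 1]) ∨ (∀ v, w v = ![v 1, v 0])}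

lemma b2_real : IsRealGroup B2 := by
  refine ⟨2, Pi.basisFun ℂ (Fin 2), ?_⟩
  rintro _ ⟨a, τ, rfl⟩ i j
  rw [Pi.basisFun_repr, Pi.basisFun_apply, sgnPerm_apply]
  by_cases h : τ i = j
  · rw [h, Pi.single_eq_same, mul_one]
    exact Complex.intCast_im _
  · rw [Pi.single_eq_of_ne h, mul_zero]
    exact Complex.zero_im

lemma gen_mem (G : Subgroup ((Fin 2 → ℂ) ≃ₗ[ℂ] (Fin 2 → ℂ))) (h0 : sgnPerm ![-1, 1] 1 ∈ G)
    (h2 : sgnPerm ![1, 1] (Equiv.swap 0 1) ∈ G) : B2 ≤ G := by
  rintro _ ⟨a, τ, rfl⟩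
  have e1 : (1 : Fin 2 → ℤˣ) = ![1, 1] := by ext i; fin_cases i <;> rfl
  have h1 : sgnPerm ![1, -1] 1 ∈ G := by
    have : sgnPerm ![1, -1] 1 = sgnPerm ![1, 1] (Equiv.swap 0 1) * sgnPerm ![-1, 1] 1 *
        sgnPerm ![1, 1] (Equiv.swap 0 1) := by
      rw [sgnPerm_mul, sgnPerm_mul]
      congr 1
      · funext i
        fin_cases i <;> simp
      · simp
    rw [this]
    exact G.mul_mem (G.mul_mem h2 h0) h2
  have e : sgnPerm a τ = sgnPerm a 1 * sgnPerm 1 τ := by
    rw [sgnPerm_mul]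
    congr 1
    funext i
    simp
  have ha : a = ![a 0, a 1] := by ext i; fin_cases i <;> rfl
  rw [e]
  apply Subgroup.mul_mem
  · rcases Int.units_eq_one_or (a 0) with g0 | g0 <;>
      rcases Int.units_eq_one_or (a 1) with g1 | g1
    · rw [ha, g0, g1, ← e1, sgnPerm_one]
      exact Subgroup.one_mem _
    · rw [ha, g0, g1]
      exact h1
    · rw [ha, g0, g1]
      exact h0
    · have : sgnPerm a 1 = sgnPerm ![-1, 1] 1 * sgnPerm ![1, -1] 1 := by
        rw [sgnPerm_mul, ha, g0, g1]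
        congr 1
        funext i
        fin_cases i <;> simp
      rw [this]
      exact Subgroup.mul_mem _ h0 h1
  · rcases perm_two τ with rfl | rfl
    · rw [sgnPerm_one]
      exact Subgroup.one_mem _
    · rw [e1]
      exact h2

lemma b2_refl : IsReflectionGroup B2 := by
  apply le_antisymm
  · have hk : ∀ k : Fin 4, sgnPerm (reflA k) (reflP k) ∈ Subgroup.closure
        {s : (Fin 2 → ℂ) ≃ₗ[ℂ] (Fin 2 → ℂ) | s ∈ B2 ∧ IsReflection s} := fun k =>
      Subgroup.subset_closure ⟨sgnPerm_mem _ _, isReflection_refl k⟩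
    exact gen_mem _ (hk 0) (hk 2)
  · rw [Subgroup.closure_le]
    rintro s ⟨hs, -⟩
    exact hs

lemma WB2_eq : WB2 = B2 := by
  have hs0 : ∀ v : Fin 2 → ℂ, sgnPerm ![-1, 1] 1 v = ![-v 0, v 1] := by
    intro v
    ext i
    rw [sgnPerm_apply]
    fin_cases i <;> simp
  have hs1 : ∀ v : Fin 2 → ℂ, sgnPerm ![1, 1] (Equiv.swap 0 1) v = ![v 1, v 0] := by
    intro v
    ext i
    rw [sgnPerm_apply]
    fin_cases i <;> simp
  apply le_antisymm
  · unfold WB2
    rw [Subgroup.closure_le]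
    rintro w (hw | hw)
    · have : w = sgnPerm ![-1, 1] 1 := LinearEquiv.ext fun v => by rw [hw, hs0]
      rw [this]
      exact sgnPerm_mem _ _
    · have : w = sgnPerm ![1, 1] (Equiv.swap 0 1) := LinearEquiv.ext fun v => by rw [hw, hs1]
      rw [this]
      exact sgnPerm_mem _ _
  · exact gen_mem _ (Subgroup.subset_closure (Or.inl hs0)) (Subgroup.subset_closure (Or.inr hs1))

/-- `B₂` is a finite real reflection group, and for every constant parameter `c = t` its
restricted rational Cherednik algebra at `t = 0` admits no cellular structure. -/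
theorem result : Finite WB2 ∧ IsReflectionGroup WB2 ∧ IsRealGroup WB2 ∧
    ∀ t : ℂ, IsParameter WB2 (fun _ => t) ∧ ¬ IsCellular (RestrictedHc WB2 (fun _ => t)) := by
  have key : ∀ W : Subgroup ((Fin 2 → ℂ) ≃ₗ[ℂ] (Fin 2 → ℂ)), W = B2 →
      Finite W ∧ IsReflectionGroup W ∧ IsRealGroup W ∧
      ∀ t : ℂ, IsParameter W (fun _ => t) ∧ ¬ IsCellular (RestrictedHc W (fun _ => t)) := by
    rintro _ rfl
    exact ⟨finite_B2, b2_refl, b2_real, fun t => ⟨isParameter_const B2 t,
      fun h => B2_not_cellular t ((cellular_iff _ _).1 h)⟩⟩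
  exact key WB2 WB2_eq

end Pool.Agent.Results.MP_385815_al.NotCellular
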